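import Mathlib
import Pool.Agent.W528.ZC.FinDefs
import Pool.Agent.W528.ZC.FinDefs2
import Pool.Agent.W528.ZC.FinDefs3
import Pool.Agent.W528.ZC.Eqs2

/-!
# The motivic Sato-Tate conjecture for abelian varieties with odd toric ranks

Let `A` be an abelian variety over a number field `F`, `M = h^1(A)`, `V = H_1(A(ℂ), ℚ)` with a
basis indexed by `ι`, `ψ` the matrix of a Riemann form, `E` the set of the matrices of the
endomorphisms of `A` over the algebraic closure of `F`, `Γ` the absolute Galois group of `F`, `σ` its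
action on the endomorphisms, `ρ ℓ` its representation on `V ⊗ ℚ_ℓ` and `χ ℓ` the cyclotomic
character.  `GoodAt` collects the known properties of `ρ ℓ` (Weil pairing, Faltings, Hodge-Tate,
Pink) and the condition on the toric ranks: every strongly irreducible subspace `U` of
`ℚ_ℓ^alg ⊗ V_ℓ` is self-dual with an alternating pairing (types I and II), and there is an element
`γ` of `Γ` with `(γ - 1) ^ 2 = 0` whose rank on `U` is odd or two (for `End(A) = ℤ`: a place of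
semistable reduction whose toric rank is odd or two).

Theorem: the twisted Lefschetz group of `A` over `F` (the similitudes of `ψ` which act on `E` by
conjugation as an element of the Galois group) is an algebraic group over `ℚ` (zeros of `S`), and
for all `ℓ ≥ ℓ₀` the `ℓ`-adic monodromy group `G_{ℓ,F}(M)` (the Zariski closure of the image of the
whole Galois group, with all its components) is its base change; the kernel `G_{1,ℓ,F}(M)` of the
similitude character is the base change of the group `AST_F(A)` given by the equations `S₁`.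

The motivic Galois group of `M` lies between the two groups, so that
`G_{1,ℓ,F}(M) = 𝒢_{1,F}(M)_{ℚ_ℓ}` and `AST_F(M) = 𝒢_{1,F}(M)`: the motivic and the algebraic
Sato-Tate conjecture hold for `M`.
-/

namespace Pool.Agent.Results.MP_d61fbb_ag.TwistedLefschetz

open Pool.Agent.W528.ZC

theorem result {ι : Type} [Fintype ι] [DecidableEq ι] (ψ : Matrix ι ι ℚ)
    (_halt : ψ.transpose = -ψ) (hψ : IsUnit ψ.det) (E : Set (Matrix ι ι ℚ))
    {Γ : Type} [Group Γ] (σ : Γ → Matrix ι ι ℚ → Matrix ι ι ℚ)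
    (ρ : ∀ (ℓ : ℕ) [Fact ℓ.Prime], Γ →* Matrix ι ι ℚ_[ℓ])
    (χ : ∀ (ℓ : ℕ) [Fact ℓ.Prime], Γ →* ℚ_[ℓ]) (ℓ₀ : ℕ)
    (hgood : ∀ (ℓ : ℕ) [Fact ℓ.Prime], ℓ₀ ≤ ℓ → GoodAt ψ E ℓ (ρ ℓ) (χ ℓ))
    (hσ : ∀ (ℓ : ℕ) [Fact ℓ.Prime], ℓ₀ ≤ ℓ → ∀ s, ∀ e ∈ E,
      ρ ℓ s * mapQ ℚ_[ℓ] e = mapQ ℚ_[ℓ] (σ s e) * ρ ℓ s) :
    ∃ S S₁ : Set (MvPolynomial (ι × ι) ℚ),
      (∀ (L : Type) [Field L] [Algebra ℚ L] (g : Matrix ι ι L), IsUnit g.det →
        (IsZeroOf S g ↔ InTwisted ψ E σ g) ∧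
          (IsZeroOf S₁ g ↔ InTwisted ψ E σ g ∧ Preserves ψ g)) ∧
      ∀ (ℓ : ℕ) [Fact ℓ.Prime], ℓ₀ ≤ ℓ →
        ∀ g : Matrix ι ι (AlgebraicClosure ℚ_[ℓ]), IsUnit g.det →
          (InClosure (ρ ℓ) g ↔ IsZeroOf S g) ∧
            (InClosure (ρ ℓ) g ∧ Preserves ψ g ↔ IsZeroOf S₁ g) := by
  obtain ⟨S, hS⟩ := twisted_eqs (Γ := Γ) hψ (E := E) σ (by
    obtain ⟨p, hp, hprime⟩ := Nat.exists_infinite_primes ℓ₀
    have _ : Fact p.Prime := ⟨hprime⟩
    refine fin_of_good σ (ρ p) (hσ p hp) ?_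
    obtain ⟨Δ, hΔ, h⟩ := (hgood p hp).1.endo
    exact ⟨Δ, hΔ, fun s hs e he => h s hs _ ⟨e, he, rfl⟩⟩)
  have hS₁ : ∀ (L : Type) [Field L] [Algebra ℚ L] (g : Matrix ι ι L), IsUnit g.det →
      (IsZeroOf (S ∪ presEqs ψ) g ↔ IsZeroOf S g ∧ Preserves ψ g) := by
    intro L _ _ g hg
    rw [← pres_iff ψ L g]
    constructor
    · intro h
      exact ⟨fun f hf => h f (Or.inl hf), fun f hf => h f (Or.inr hf)⟩
    · rintro ⟨h1, h2⟩ f (hf | hf)
      · exact h1 f hf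
      · exact h2 f hf
  refine ⟨S, S ∪ presEqs ψ, fun L _ _ g hg => ⟨hS L g hg, ?_⟩, fun ℓ _ hℓ g hg => ?_⟩
  · rw [hS₁ L g hg, hS L g hg]
  have hψ' : IsUnit (mapQ ℚ_[ℓ] ψ).det := by
    have h1 := (algebraMap ℚ ℚ_[ℓ]).map_det ψ
    rw [RingHom.mapMatrix_apply] at h1
    unfold mapQ
    rw [← h1]
    exact hψ.map _
  have hmap : ∀ M : Matrix ι ι ℚ, (mapQ ℚ_[ℓ] M).map
      (algebraMap ℚ_[ℓ] (AlgebraicClosure ℚ_[ℓ])) = mapQ (AlgebraicClosure ℚ_[ℓ]) M := by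
    intro M
    ext i j
    simp only [mapQ, Matrix.map_apply]
    exact (IsScalarTower.algebraMap_apply ℚ ℚ_[ℓ] (AlgebraicClosure ℚ_[ℓ]) _).symm
  have hconj : ∀ s, ∀ e ∈ E, (ρ ℓ s * mapQ ℚ_[ℓ] e * ρ ℓ s⁻¹).map
      (algebraMap ℚ_[ℓ] (AlgebraicClosure ℚ_[ℓ])) = mapQ (AlgebraicClosure ℚ_[ℓ]) (σ s e) := by
    intro s e he
    rw [hσ ℓ hℓ s e he, mul_assoc, ← map_mul, mul_inv_cancel, map_one, mul_one, hmap]
  have key : InClosure (ρ ℓ) g ↔ IsZeroOf S g := by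
    rw [hS (AlgebraicClosure ℚ_[ℓ]) g hg, main_T hψ' (hgood ℓ hℓ).1 (hgood ℓ hℓ).2 g hg, hmap]
    refine and_congr Iff.rfl (exists_congr fun s => ?_)
    constructor
    · intro h e he
      have h1 := h _ ⟨e, he, rfl⟩
      rwa [hmap, hconj s e he] at h1
    · rintro h _ ⟨e, he, rfl⟩
      rw [hmap, hconj s e he]
      exact h e he
  exact ⟨key, by rw [key, hS₁ (AlgebraicClosure ℚ_[ℓ]) g hg]⟩

end Pool.Agent.Results.MP_d61fbb_ag.TwistedLefschetz
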